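import Pool.Agent.H44.BN3

open Pool.Agent.H44.BN

namespace Pool.Agent.Results.MP_e5a0e3_pr.Q1False

theorem result : ¬ ∀ d k : ℕ, 1 ≤ d → 1 ≤ k → k ≤ d → theta k d = 0 := fun h =>
  (theta_pos (k := 26) (d := 26) (by norm_num) (by norm_num) (by norm_num)).ne'
    (h 26 26 (by norm_num) (by norm_num) le_rfl)

end Pool.Agent.Results.MP_e5a0e3_pr.Q1False
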